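import Pool.Agent.L0h52.BZ.Stm

/-!
# Project BZ, modules GEO, SUM, LOW
-/

set_option autoImplicit false

namespace Pool.Agent.L0h64.BZ

open Pool.Agent.L0h52.BZ

theorem t_GEO : S_GEO := by
  intro a ω ha hω z hz
  have hx : ‖Complex.exp (-z)‖ < 1 := by
    rw [Complex.norm_exp]
    rw [Real.exp_lt_one_iff]
    simpa using hz
  have hy : ‖Complex.exp (-((ω : ℂ) * z))‖ < 1 := by
    rw [Complex.norm_exp, Real.exp_lt_one_iff]
    have : (-((ω : ℂ) * z)).re = -(ω * z.re) := by simp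
    rw [this]
    have := mul_pos hω hz
    linarith
  have h1 := (hasSum_geometric_of_norm_lt_one hx).mul (hasSum_geometric_of_norm_lt_one hy)
    (summable_mul_of_summable_norm (summable_norm_geometric_of_norm_lt_one hx)
      (summable_norm_geometric_of_norm_lt_one hy))
  have h2 := h1.mul_left (Complex.exp (-((a : ℂ) * z)))
  have e1 : ff a ω z = Complex.exp (-((a : ℂ) * z)) *
      ((1 - Complex.exp (-z))⁻¹ * (1 - Complex.exp (-((ω : ℂ) * z)))⁻¹) := by
    unfold ff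
    rw [div_eq_mul_inv, mul_inv]
  have e2 : (fun m : ℕ × ℕ => Complex.exp (-(((lam a ω m : ℝ) : ℂ) * z))) =
      fun m => Complex.exp (-((a : ℂ) * z)) *
        (Complex.exp (-z) ^ m.1 * Complex.exp (-((ω : ℂ) * z)) ^ m.2) := by
    funext m
    unfold lam
    rw [← Complex.exp_nat_mul, ← Complex.exp_nat_mul, ← Complex.exp_add, ← Complex.exp_add]
    congr 1
    push_cast
    ring
  rw [e1, e2]
  exact h2

theorem t_SUM : S_SUM := by
  intro a ω ha hω σ hσ
  set c : ℝ := min a (min 1 ω) with hc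
  have hc0 : 0 < c := lt_min ha (lt_min one_pos hω)
  have h1 : Summable fun n : ℕ => ((n : ℝ) + 1) ^ (-(σ / 2)) := by
    have := (summable_nat_add_iff (f := fun n : ℕ => (n : ℝ) ^ (-(σ / 2))) 1).2
      (Real.summable_nat_rpow.2 (by linarith))
    simpa using this
  have h2 : Summable fun m : ℕ × ℕ => ((m.1 : ℝ) + 1) ^ (-(σ / 2)) * ((m.2 : ℝ) + 1) ^ (-(σ / 2)) :=
    h1.mul_of_nonneg h1 (fun n => by positivity) (fun n => by positivity)
  refine Summable.of_nonneg_of_le ?_ ?_ (h2.mul_left (c ^ (-σ)))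
  · intro m
    unfold lam
    positivity
  · rintro ⟨m, n⟩
    have hm : (0 : ℝ) ≤ m := Nat.cast_nonneg m
    have hn : (0 : ℝ) ≤ n := Nat.cast_nonneg n
    simp only
    have e1 : c * (1 + m + n) ≤ lam a ω (m, n) := by
      unfold lam
      simp only
      have h3 : c ≤ a := min_le_left _ _
      have h4 : c ≤ 1 := (min_le_right _ _).trans (min_le_left _ _)
      have h5 : c ≤ ω := (min_le_right _ _).trans (min_le_right _ _)
      nlinarith [mul_nonneg hm (by linarith : (0 : ℝ) ≤ 1 - c), mul_nonneg hn (by linarith : (0 : ℝ) ≤ ω - c)]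
    have e2 : ((m : ℝ) + 1) ^ ((1 : ℝ) / 2) * ((n : ℝ) + 1) ^ ((1 : ℝ) / 2) ≤ 1 + m + n := by
      rw [← Real.sqrt_eq_rpow, ← Real.sqrt_eq_rpow, ← Real.sqrt_mul (by positivity)]
      rw [Real.sqrt_le_left (by positivity)]
      nlinarith
    have e3 : c * (((m : ℝ) + 1) ^ ((1 : ℝ) / 2) * ((n : ℝ) + 1) ^ ((1 : ℝ) / 2)) ≤ lam a ω (m, n) :=
      (mul_le_mul_of_nonneg_left e2 hc0.le).trans e1
    have e4 : 0 < c * (((m : ℝ) + 1) ^ ((1 : ℝ) / 2) * ((n : ℝ) + 1) ^ ((1 : ℝ) / 2)) := by positivity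
    refine (Real.rpow_le_rpow_of_nonpos e4 e3 (by linarith)).trans (le_of_eq ?_)
    rw [Real.mul_rpow hc0.le (by positivity), Real.mul_rpow (by positivity) (by positivity),
      ← Real.rpow_mul (by positivity), ← Real.rpow_mul (by positivity)]
    have : (1 : ℝ) / 2 * -σ = -(σ / 2) := by ring
    rw [this]

theorem t_LOW : S_LOW := by
  intro a ω ha hω
  have hpi := Real.pi_pos
  have hpi3 := Real.pi_gt_three
  obtain ⟨δ₀, hδ₀, b1, b2, b3, b4⟩ : ∃ δ₀ : ℝ, 0 < δ₀ ∧ δ₀ ≤ 1 / (2 * Real.pi * a) ∧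
      δ₀ ≤ 1 / (2 * Real.pi * (ω + 1)) ∧ δ₀ ≤ ω / (32 * (ω + 1)) ∧ δ₀ ≤ 1 := by
    refine ⟨min (min (1 / (2 * Real.pi * a)) (1 / (2 * Real.pi * (ω + 1)))) (min (ω / (32 * (ω + 1))) 1),
      ?_, ?_, ?_, ?_, ?_⟩
    · apply lt_min
      · apply lt_min <;> positivity
      · apply lt_min <;> positivity
    · exact (min_le_left _ _).trans (min_le_left _ _)
    · exact (min_le_left _ _).trans (min_le_right _ _)
    · exact (min_le_right _ _).trans (min_le_left _ _)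
    · exact (min_le_right _ _).trans (min_le_right _ _)
  refine ⟨1 / (128 * Real.pi ^ 2 * (ω + 1)), δ₀, by positivity, hδ₀, ?_⟩
  intro p q δ hq hδ hqδ hp
  have hq1 : (1 : ℝ) ≤ q := by exact_mod_cast hq
  have hδδ : δ ≤ δ₀ := le_trans (by nlinarith) hqδ
  have hδ1 : δ ≤ 1 := hδδ.trans b4
  have hsin : 0 < Real.sin δ := Real.sin_pos_of_pos_of_lt_pi hδ (by linarith)
  have hsin2 : Real.sin δ ≤ δ := (Real.sin_lt hδ).le
  -- the point
  set z : ℂ := ((2 * Real.pi * q : ℝ) : ℂ) * uu (Real.pi / 2 - δ) with hz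
  obtain ⟨w, hw⟩ : ∃ w : ℂ, w = ((Real.sin δ : ℝ) : ℂ) + ((Real.cos δ - 1 : ℝ) : ℂ) * Complex.I :=
    ⟨_, rfl⟩
  have hwre : w.re = Real.sin δ := by
    rw [hw, Complex.add_re, Complex.ofReal_re, Complex.re_ofReal_mul, Complex.I_re, mul_zero,
      add_zero]
  have hwim : w.im = Real.cos δ - 1 := by
    rw [hw, Complex.add_im, Complex.ofReal_im, Complex.im_ofReal_mul, Complex.I_im, mul_one,
      zero_add]
  have hzw : z = ((2 * Real.pi * q : ℝ) : ℂ) * w + ((2 * Real.pi * q : ℝ) : ℂ) * Complex.I := by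
    rw [hz, hw]
    unfold uu
    rw [Complex.exp_mul_I, ← Complex.ofReal_cos, ← Complex.ofReal_sin, Real.cos_pi_div_two_sub,
      Real.sin_pi_div_two_sub]
    push_cast
    ring
  have hwn : ‖w‖ ≤ δ := by
    have h1 : ‖w‖ ^ 2 ≤ δ ^ 2 := by
      rw [Complex.sq_norm, Complex.normSq_apply]
      rw [hwre, hwim]
      have h2 := Real.one_sub_sq_div_two_le_cos (x := δ)
      nlinarith [Real.sin_sq_add_cos_sq δ]
    exact (pow_le_pow_iff_left₀ (norm_nonneg _) hδ.le (by norm_num)).1 h1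
  have hzre : z.re = 2 * Real.pi * q * Real.sin δ := by
    rw [hzw, Complex.add_re, Complex.re_ofReal_mul, Complex.re_ofReal_mul, hwre, Complex.I_re,
      mul_zero, add_zero]
  have hzn : ‖z‖ = 2 * Real.pi * q := by
    rw [hz, norm_mul, Complex.norm_real, Real.norm_of_nonneg (by positivity)]
    unfold uu
    rw [Complex.norm_exp_ofReal_mul_I, mul_one]
  have hzre0 : 0 < z.re := by rw [hzre]; positivity
  -- first exponential
  obtain ⟨x, hx⟩ : ∃ x : ℂ, x = ((2 * Real.pi * q : ℝ) : ℂ) * w := ⟨_, rfl⟩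
  have hxn : ‖x‖ ≤ 2 * Real.pi * q * δ := by
    rw [hx, norm_mul, Complex.norm_real, Real.norm_of_nonneg (by positivity)]
    exact mul_le_mul_of_nonneg_left hwn (by positivity)
  have e1 : Complex.exp (-z) = Complex.exp (-x) := by
    rw [Complex.exp_eq_exp_iff_exists_int]
    refine ⟨-(q : ℤ), ?_⟩
    rw [hzw, hx]
    push_cast
    ring
  -- second exponential
  obtain ⟨x', hx'⟩ : ∃ x' : ℂ, x' = (ω : ℂ) * x +
      ((2 * Real.pi * q * (ω - p / q) : ℝ) : ℂ) * Complex.I := ⟨_, rfl⟩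
  have hq0 : (q : ℂ) ≠ 0 := by
    have : (q : ℝ) ≠ 0 := by linarith
    exact_mod_cast this
  have e2 : Complex.exp (-((ω : ℂ) * z)) = Complex.exp (-x') := by
    rw [Complex.exp_eq_exp_iff_exists_int]
    refine ⟨-p, ?_⟩
    rw [hzw, hx', hx]
    push_cast
    field_simp
    ring
  have hx'n : ‖x'‖ ≤ 2 * Real.pi * q * δ * (ω + 1) := by
    rw [hx']
    refine (norm_add_le _ _).trans ?_
    rw [norm_mul, norm_mul, Complex.norm_I, mul_one, Complex.norm_real, Complex.norm_real,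
      Real.norm_of_nonneg hω.le, Real.norm_eq_abs, abs_mul, abs_of_nonneg (by positivity : (0 : ℝ) ≤ 2 * Real.pi * q)]
    have h1 : ω * ‖x‖ ≤ ω * (2 * Real.pi * q * δ) := mul_le_mul_of_nonneg_left hxn hω.le
    have h2 : 2 * Real.pi * q * |ω - p / q| ≤ 2 * Real.pi * q * δ :=
      mul_le_mul_of_nonneg_left hp (by positivity)
    nlinarith
  have hA : 2 * Real.pi * q * δ * (ω + 1) ≤ 1 := by
    have h1 : (q : ℝ) * δ ≤ 1 / (2 * Real.pi * (ω + 1)) := hqδ.trans b2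
    rw [le_div_iff₀ (by positivity)] at h1
    nlinarith
  have hx'1 : ‖x'‖ ≤ 1 := hx'n.trans hA
  have hx1 : ‖x‖ ≤ 1 := by
    refine hxn.trans (le_trans ?_ hA)
    have : 0 ≤ 2 * Real.pi * q * δ := by positivity
    nlinarith
  have d1 : ‖1 - Complex.exp (-z)‖ ≤ 2 * (2 * Real.pi * q * δ) := by
    rw [e1, norm_sub_rev]
    refine (Complex.norm_exp_sub_one_le (by rwa [norm_neg])).trans ?_
    rw [norm_neg]
    linarith
  have d2 : ‖1 - Complex.exp (-((ω : ℂ) * z))‖ ≤ 2 * (2 * Real.pi * q * δ * (ω + 1)) := by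
    rw [e2, norm_sub_rev]
    refine (Complex.norm_exp_sub_one_le (by rwa [norm_neg])).trans ?_
    rw [norm_neg]
    linarith
  -- not zero
  have n1 : 0 < ‖1 - Complex.exp (-z)‖ := by
    rw [norm_pos_iff]
    intro h
    have h1 : ‖Complex.exp (-z)‖ = 1 := by
      rw [← sub_eq_zero.1 h, norm_one]
    rw [Complex.norm_exp, Real.exp_eq_one_iff] at h1
    simp at h1
    linarith
  have n2 : 0 < ‖1 - Complex.exp (-((ω : ℂ) * z))‖ := by
    rw [norm_pos_iff]
    intro h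
    have h1 : ‖Complex.exp (-((ω : ℂ) * z))‖ = 1 := by
      rw [← sub_eq_zero.1 h, norm_one]
    rw [Complex.norm_exp, Real.exp_eq_one_iff] at h1
    have h2 : (-((ω : ℂ) * z)).re = -(ω * z.re) := by simp
    rw [h2] at h1
    have := mul_pos hω hzre0
    linarith
  -- numerator
  have num : 1 / 4 ≤ ‖Complex.exp (-((a : ℂ) * z))‖ := by
    rw [Complex.norm_exp]
    have h2 : (-((a : ℂ) * z)).re = -(a * z.re) := by simp
    rw [h2, hzre]
    have h3 : a * (2 * Real.pi * q * Real.sin δ) ≤ 1 := by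
      have h4 : (q : ℝ) * δ ≤ 1 / (2 * Real.pi * a) := hqδ.trans b1
      rw [le_div_iff₀ (by positivity)] at h4
      have h5 : a * (2 * Real.pi * q * Real.sin δ) ≤ a * (2 * Real.pi * q * δ) := by gcongr
      nlinarith
    have h6 : Real.exp (-1) ≤ Real.exp (-(a * (2 * Real.pi * q * Real.sin δ))) :=
      Real.exp_le_exp.2 (by linarith)
    refine le_trans ?_ h6
    rw [Real.exp_neg, one_div]
    apply inv_anti₀ (Real.exp_pos _)
    have := Real.exp_one_lt_d9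
    linarith
  have main : 1 / (64 * Real.pi ^ 2 * (ω + 1)) / ((q : ℝ) ^ 2 * δ ^ 2) ≤ ‖ff a ω z‖ := by
    unfold ff
    rw [norm_div, norm_mul]
    have h1 : ‖1 - Complex.exp (-z)‖ * ‖1 - Complex.exp (-((ω : ℂ) * z))‖ ≤
        2 * (2 * Real.pi * q * δ) * (2 * (2 * Real.pi * q * δ * (ω + 1))) :=
      mul_le_mul d1 d2 n2.le (by positivity)
    rw [le_div_iff₀ (mul_pos n1 n2)]
    refine le_trans ?_ num
    calc _ ≤ 1 / (64 * Real.pi ^ 2 * (ω + 1)) / ((q : ℝ) ^ 2 * δ ^ 2) *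
          (2 * (2 * Real.pi * q * δ) * (2 * (2 * Real.pi * q * δ * (ω + 1)))) :=
            mul_le_mul_of_nonneg_left h1 (by positivity)
      _ = 1 / 4 := by
          field_simp
          ring
  have sec : ‖Complex.exp (-z) / ((ω : ℂ) * z ^ 2)‖ ≤
      1 / (128 * Real.pi ^ 2 * (ω + 1)) / ((q : ℝ) ^ 2 * δ ^ 2) := by
    rw [norm_div, norm_mul, norm_pow, hzn, Complex.norm_real, Real.norm_of_nonneg hω.le,
      Complex.norm_exp]
    have h1 : Real.exp (-z).re ≤ 1 := by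
      rw [Real.exp_le_one_iff]
      simp
      exact hzre0.le
    have h2 : Real.exp (-z).re / (ω * (2 * Real.pi * q) ^ 2) ≤ 1 / (ω * (2 * Real.pi * q) ^ 2) := by
      gcongr
    refine h2.trans ?_
    rw [div_div, div_le_div_iff₀ (by positivity) (by positivity)]
    have h3 : 32 * (ω + 1) * δ ^ 2 ≤ ω := by
      have h4 : δ ≤ ω / (32 * (ω + 1)) := hδδ.trans b3
      rw [le_div_iff₀ (by positivity)] at h4
      have h5 : δ * (δ * (32 * (ω + 1))) ≤ 1 * ω := mul_le_mul hδ1 h4 (by positivity) (by norm_num)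
      calc 32 * (ω + 1) * δ ^ 2 = δ * (δ * (32 * (ω + 1))) := by ring
        _ ≤ 1 * ω := h5
        _ = ω := one_mul ω
    have h6 : 0 ≤ Real.pi ^ 2 * (q : ℝ) ^ 2 * 4 := by positivity
    calc 1 * (128 * Real.pi ^ 2 * (ω + 1) * ((q : ℝ) ^ 2 * δ ^ 2)) =
          Real.pi ^ 2 * (q : ℝ) ^ 2 * 4 * (32 * (ω + 1) * δ ^ 2) := by ring
      _ ≤ Real.pi ^ 2 * (q : ℝ) ^ 2 * 4 * ω := mul_le_mul_of_nonneg_left h3 h6
      _ = 1 * (ω * (2 * Real.pi * q) ^ 2) := by ring
  have hfin : ‖ff a ω z‖ - ‖Complex.exp (-z) / ((ω : ℂ) * z ^ 2)‖ ≤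
      ‖hr a ω (Real.pi / 2 - δ) (2 * Real.pi * q)‖ := by
    show _ ≤ ‖hh a ω z‖
    unfold hh
    exact norm_sub_norm_le _ _
  refine le_trans ?_ hfin
  have e3 : 1 / (64 * Real.pi ^ 2 * (ω + 1)) / ((q : ℝ) ^ 2 * δ ^ 2) =
      2 * (1 / (128 * Real.pi ^ 2 * (ω + 1)) / ((q : ℝ) ^ 2 * δ ^ 2)) := by
    field_simp
    ring
  rw [e3] at main
  linarith

end Pool.Agent.L0h64.BZ
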